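import Pool.Agent.Results.MP_09d285_al.BoundedVirtualBetti

/-!
First Betti numbers of finite-index subgroups of quotients of free groups by many deep relators.
-/

namespace Pool.Agent.Y29.GS

open Pool.Agent.W400.GS
open Pool.Agent.Results.MP_09d285_al.BoundedVirtualBetti
open TensorProduct

/-- functionals on the rationalised abelianisation give homomorphisms to `ℚ` -/
noncomputable def dualMap (H : Type) [Group H] : Module.Dual ℚ (RatAb H) →ₗ[ℚ] QH H where
  toFun f :=
    { toFun := fun h => f ((1 : ℚ) ⊗ₜ[ℤ] (Additive.ofMul (Abelianization.of h.toMul)))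
      map_zero' := by
        rw [toMul_zero, map_one, ofMul_one, TensorProduct.tmul_zero, map_zero]
      map_add' := fun a b => by
        rw [toMul_add, map_mul, ofMul_mul, TensorProduct.tmul_add, map_add] }
  map_add' _ _ := rfl
  map_smul' _ _ := rfl

theorem dualMap_apply (H : Type) [Group H] (f : Module.Dual ℚ (RatAb H)) (h : H) :
    dualMap H f (Additive.ofMul h) =
      f ((1 : ℚ) ⊗ₜ[ℤ] (Additive.ofMul (Abelianization.of h))) := rfl

/-- functionals on the rationalised abelianisation are homomorphisms to `ℚ` -/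
noncomputable def dualEquiv (H : Type) [Group H] : Module.Dual ℚ (RatAb H) ≃ₗ[ℚ] QH H :=
  LinearEquiv.ofBijective (dualMap H) (by
    constructor
    · rw [← LinearMap.ker_eq_bot, LinearMap.ker_eq_bot']
      intro f hf
      have h1 : ∀ k : H, f ((1 : ℚ) ⊗ₜ[ℤ] (Additive.ofMul (Abelianization.of k))) = 0 := by
        intro k
        rw [← dualMap_apply, hf]; rfl
      apply LinearMap.ext
      intro v
      induction v using TensorProduct.induction_on with
      | zero => rw [map_zero, map_zero]
      | add x y hx hy => rw [map_add, map_add, hx, hy]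
      | tmul q a =>
        obtain ⟨k, hk⟩ := Quot.exists_rep (Additive.toMul a : Abelianization H)
        have ha : a = Additive.ofMul (Abelianization.of k) := by
          rw [← ofMul_toMul a, ← hk]; rfl
        have h5 : q ⊗ₜ[ℤ] a = q • ((1 : ℚ) ⊗ₜ[ℤ] a) := by
          rw [TensorProduct.smul_tmul', smul_eq_mul, mul_one]
        rw [h5, map_smul, ha, h1 k, smul_zero, LinearMap.zero_apply]
    · intro φ
      let g : Abelianization H →* Multiplicative ℚ :=
        Abelianization.lift (AddMonoidHom.toMultiplicativeRight φ)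
      let g' : Additive (Abelianization H) →+ ℚ := AddMonoidHom.toMultiplicativeRight.symm g
      refine ⟨g'.toIntLinearMap.liftBaseChange ℚ, ?_⟩
      apply AddMonoidHom.ext
      intro h
      rw [← ofMul_toMul h, dualMap_apply, LinearMap.liftBaseChange_one_tmul]
      rfl)

theorem betti_eq (H : Type) [Group H] [Group.FG H] :
    firstBetti H = (Module.finrank ℚ (QH H) : Cardinal) := by
  have h1 : Module.Finite ℚ (QH H) := finite_QH
  have h2 : Module.Finite ℚ (Module.Dual ℚ (RatAb H)) := Module.Finite.equiv (dualEquiv H).symm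
  have h3 : Module.Finite ℚ (RatAb H) := (Module.finite_dual_iff ℚ).mp h2
  unfold firstBetti
  have h4 : Module.finrank ℚ (QH H) = Module.finrank ℚ (RatAb H) := by
    rw [← (dualEquiv H).finrank_eq, Subspace.dual_finrank_eq]
  rw [h4]
  exact (Module.finrank_eq_rank ℚ (RatAb H)).symm

variable {d : ℕ}

/-- The extension property: every homomorphism from a finite-index subgroup to `ℚ` extends. -/
theorem extends_hom {G : Type} [Group G] (R : Set (FreeGroup (Fin d)))
    (hR : ∀ m, ∃ N, ∀ φ : QH (core d m),
      (∀ r (hr : r ∈ core d m), r ∈ R → φ (Additive.ofMul ⟨r, hr⟩) = 0) →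
        ∀ h : core d m, (h : FreeGroup (Fin d)) ∈
          (⊤ : Subgroup (FreeGroup (Fin d))).lowerCentralSeries N → φ (Additive.ofMul h) = 0)
    (ρ : FreeGroup (Fin d) →* G) (hρ : Function.Surjective ρ)
    (hker : ∀ r ∈ R, ρ r = 1)
    (K : Subgroup G) (hK : K.FiniteIndex) (φ : QH K) : ∃ ψ : QH G, restr K ψ = φ := by
  have hidx : (K.comap ρ).FiniteIndex :=
    ⟨by rw [Subgroup.index_comap_of_surjective K hρ]; exact hK.index_ne_zero⟩
  set m := (K.comap ρ).index with hm
  have hle : core d m ≤ K.comap ρ := core_le d _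
  obtain ⟨N, hN⟩ := hR m
  let jm : core d m →* K := (ρ.comp (core d m).subtype).codRestrict K (fun h => hle h.2)
  have hjm : ∀ h : core d m, (jm h : G) = ρ h := fun h => rfl
  let φ' : QH (core d m) := φ.comp (MonoidHom.toAdditive jm)
  have hφ' : ∀ h : core d m, φ' (Additive.ofMul h) = φ (Additive.ofMul (jm h)) := fun h => rfl
  have hrange : φ' ∈ LinearMap.range (restr (core d m)) := by
    apply mem_range_restr (core d m) N
    apply hN
    intro r hr hrR
    rw [hφ']
    have h1 : jm ⟨r, hr⟩ = 1 := Subtype.ext (hker r hrR)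
    rw [h1, ofMul_one, map_zero]
  obtain ⟨Ψ, hΨ⟩ := hrange
  have hΨ' : ∀ h : core d m, Ψ (Additive.ofMul (h : FreeGroup (Fin d))) =
      φ (Additive.ofMul (jm h)) := by
    intro h
    rw [← hφ', ← hΨ]; rfl
  have hj0 : ((core d m).index : ℚ) ≠ 0 := by
    exact_mod_cast Subgroup.FiniteIndex.index_ne_zero
  have hpow : ∀ x : FreeGroup (Fin d), ((core d m).index : ℚ) * Ψ (Additive.ofMul x) =
      φ (Additive.ofMul (jm ⟨x ^ (core d m).index, (core d m).pow_index_mem x⟩)) := by
    intro x
    rw [← hΨ', ofMul_pow, map_nsmul, nsmul_eq_mul]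
  have hz : ∀ x, ρ x = 1 → Ψ (Additive.ofMul x) = 0 := by
    intro x hx
    have h1 := hpow x
    have h2 : jm ⟨x ^ (core d m).index, (core d m).pow_index_mem x⟩ = 1 := by
      apply Subtype.ext
      rw [hjm, map_pow, hx, one_pow]; rfl
    rw [h2, ofMul_one, map_zero] at h1
    exact (mul_eq_zero.mp h1).resolve_left hj0
  let Ψ' : FreeGroup (Fin d) →* Multiplicative ℚ := AddMonoidHom.toMultiplicativeRight Ψ
  have hle' : ρ.ker ≤ Ψ'.ker := by
    intro x hx
    exact hz x hx
  let ψ' : G →* Multiplicative ℚ := ρ.liftOfSurjective hρ ⟨Ψ', hle'⟩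
  have hψ' : ∀ x, ψ' (ρ x) = Ψ' x := fun x =>
    MonoidHom.liftOfRightInverse_comp_apply ρ _ (Function.rightInverse_surjInv hρ) ⟨Ψ', hle'⟩ x
  let ψ : QH G := AddMonoidHom.toMultiplicativeRight.symm ψ'
  have hψ : ∀ x, ψ (Additive.ofMul (ρ x)) = Ψ (Additive.ofMul x) := fun x => hψ' x
  refine ⟨ψ, ?_⟩
  apply AddMonoidHom.ext
  intro k
  obtain ⟨x, hx⟩ := hρ (k.toMul : G)
  have h1 : restr K ψ k = ψ (Additive.ofMul (k.toMul : G)) := rfl
  rw [h1, ← hx, hψ]
  have h2 := hpow x
  have h3 : jm ⟨x ^ (core d m).index, (core d m).pow_index_mem x⟩ =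
      k.toMul ^ (core d m).index := by
    apply Subtype.ext
    rw [hjm, map_pow, hx]; rfl
  rw [h3, ofMul_pow, map_nsmul, nsmul_eq_mul, ofMul_toMul] at h2
  exact mul_left_cancel₀ hj0 h2

theorem restr_injective {G : Type} [Group G] (K : Subgroup G) (hK : K.FiniteIndex) :
    Function.Injective (restr K) := by
  rw [← LinearMap.ker_eq_bot, LinearMap.ker_eq_bot']
  intro f hf
  apply AddMonoidHom.ext
  intro g
  obtain ⟨n, hn, -, hmem⟩ := Subgroup.exists_pow_mem_of_index_ne_zero
    (H := K) Subgroup.FiniteIndex.index_ne_zero (g.toMul)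
  have h1 := DFunLike.congr_fun hf (Additive.ofMul (⟨g.toMul ^ n, hmem⟩ : K))
  have h2 : f (Additive.ofMul (g.toMul ^ n)) = 0 := h1
  rw [ofMul_pow, map_nsmul, nsmul_eq_mul, ofMul_toMul] at h2
  have h3 : (n : ℚ) ≠ 0 := by exact_mod_cast hn.ne'
  exact (mul_eq_zero.mp h2).resolve_left h3

/-- constant first Betti number -/
theorem betti_const {G : Type} [Group G] (hG : Group.FG G)
    (hext : ∀ K : Subgroup G, K.FiniteIndex → ∀ φ : QH K, ∃ ψ : QH G, restr K ψ = φ)
    (K : Subgroup G) (hK : K.FiniteIndex) : firstBetti K = firstBetti G := by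
  have h1 : Group.FG K := inferInstance
  rw [betti_eq, betti_eq]
  have e : QH G ≃ₗ[ℚ] QH K := LinearEquiv.ofBijective (restr K)
    ⟨restr_injective K hK, fun φ => hext K hK φ⟩
  rw [e.finrank_eq]

/-- quotients by subgroups of the commutator subgroup have the same first Betti number -/
theorem betti_quot {Γ : Type} [Group Γ] (hΓ : Group.FG Γ) (M : Subgroup Γ) [M.Normal]
    (hM : M ≤ (⊤ : Subgroup Γ).lowerCentralSeries 1) : firstBetti (Γ ⧸ M) = firstBetti Γ := by
  have h1 : Group.FG (Γ ⧸ M) := QuotientGroup.fg _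
  rw [betti_eq, betti_eq]
  let L : QH (Γ ⧸ M) →ₗ[ℚ] QH Γ :=
    { toFun := fun f => f.comp (MonoidHom.toAdditive (QuotientGroup.mk' M))
      map_add' := fun _ _ => rfl
      map_smul' := fun _ _ => rfl }
  have hL : Function.Bijective L := by
    constructor
    · intro f g h
      apply AddMonoidHom.ext
      intro x
      obtain ⟨y, hy⟩ := QuotientGroup.mk'_surjective M x.toMul
      have h2 := DFunLike.congr_fun h (Additive.ofMul y)
      have h3 : f (Additive.ofMul (QuotientGroup.mk' M y)) =
        g (Additive.ofMul (QuotientGroup.mk' M y)) := h2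
      rw [hy] at h3
      exact h3
    · intro φ
      have hle : M ≤ (AddMonoidHom.toMultiplicativeRight φ).ker := by
        refine hM.trans ?_
        rw [Subgroup.top_lowerCentralSeries_one]
        exact Abelianization.commutator_subset_ker _
      refine ⟨AddMonoidHom.toMultiplicativeRight.symm (QuotientGroup.lift M _ hle), ?_⟩
      apply AddMonoidHom.ext
      intro x
      rfl
  rw [(LinearEquiv.ofBijective L hL).finrank_eq]

/-- the first Betti number of a free group -/
theorem betti_free (d : ℕ) : firstBetti (FreeGroup (Fin d)) = d := by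
  rw [betti_eq]
  let L : QH (FreeGroup (Fin d)) →ₗ[ℚ] (Fin d → ℚ) :=
    { toFun := fun φ i => φ (Additive.ofMul (FreeGroup.of i))
      map_add' := fun _ _ => rfl
      map_smul' := fun _ _ => rfl }
  have hL : Function.Bijective L := by
    constructor
    · intro φ ψ h
      have h2 : AddMonoidHom.toMultiplicativeRight φ = AddMonoidHom.toMultiplicativeRight ψ := by
        apply FreeGroup.ext_hom
        intro i
        exact congrArg Multiplicative.ofAdd (congr_fun h i)
      exact AddMonoidHom.toMultiplicativeRight.injective h2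
    · intro v
      refine ⟨AddMonoidHom.toMultiplicativeRight.symm
        (FreeGroup.lift (fun i => Multiplicative.ofAdd (v i))), ?_⟩
      funext i
      show Multiplicative.toAdd (FreeGroup.lift (fun i => Multiplicative.ofAdd (v i))
        (FreeGroup.of i)) = v i
      rw [FreeGroup.lift_apply_of]
      rfl
  rw [(LinearEquiv.ofBijective L hL).finrank_eq]
  simp

end Pool.Agent.Y29.GS
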