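import Pool.Agent.Y29.GS.Betti
import Pool.Agent.Helper111.EN.Resid

/-!
Every group which is Golod-Shafarevich in characteristic zero has a residually finite quotient
of the same kind with constant first Betti number on finite-index subgroups.
-/

namespace Pool.Agent.Y29.GS

open Pool.Agent.W400.GS
open Pool.Agent.Results.MP_09d285_al.BoundedVirtualBetti

section weights

variable {α : Type} {w : α → ℝ}

/-- the total weight of `A` is at most `c` -/
def Wt (w : α → ℝ) (A : Set α) (c : ℝ) : Prop :=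
  ∀ u : Finset α, (∀ x ∈ u, x ∈ A) → ∑ x ∈ u, w x ≤ c

theorem wt_of_summable (hw : ∀ x, 0 ≤ w x) {A : Set α} (h : Summable (fun x : A => w x)) :
    Wt w A (∑' x : A, w x) := by
  classical
  intro u hu
  have h1 : ∑ x ∈ u, w x = ∑ x ∈ u.attach.image (fun x => (⟨x.1, hu x.1 x.2⟩ : A)), w x := by
    rw [Finset.sum_image]
    · rw [Finset.sum_attach u (fun x => w x)]
    · intro a _ b _ hab
      exact Subtype.ext (congrArg (fun y : A => (y : α)) hab)
  rw [h1]
  exact h.sum_le_tsum _ (fun x _ => hw _)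

theorem summable_of_wt (hw : ∀ x, 0 ≤ w x) {A : Set α} {c : ℝ} (h : Wt w A c) :
    Summable (fun x : A => w x) ∧ ∑' x : A, w x ≤ c := by
  classical
  have h1 : ∀ u : Finset A, ∑ x ∈ u, w x ≤ c := by
    intro u
    have h2 : ∑ x ∈ u, w x = ∑ x ∈ u.image (fun r : A => (r : α)), w x := by
      rw [Finset.sum_image]
      intro a _ b _ h
      exact Subtype.ext h
    rw [h2]
    apply h
    intro x hx
    obtain ⟨r, -, rfl⟩ := Finset.mem_image.mp hx
    exact r.2
  exact ⟨summable_of_sum_le (fun x => hw _) h1,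
    Real.tsum_le_of_sum_le (fun x => hw _) h1⟩

theorem wt_union (hw : ∀ x, 0 ≤ w x) {A B : Set α} {a b : ℝ} (hA : Wt w A a) (hB : Wt w B b) :
    Wt w (A ∪ B) (a + b) := by
  classical
  intro u hu
  have h1 : ∑ x ∈ u, w x = ∑ x ∈ u.filter (fun x => x ∈ A), w x +
      ∑ x ∈ u.filter (fun x => ¬ x ∈ A), w x :=
    (Finset.sum_filter_add_sum_filter_not u (fun x => x ∈ A) w).symm
  rw [h1]
  apply add_le_add
  · apply hA
    intro x hx
    exact (Finset.mem_filter.1 hx).2
  · apply hB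
    intro x hx
    obtain ⟨h2, h3⟩ := Finset.mem_filter.1 hx
    exact (hu x h2).resolve_left h3

theorem wt_iUnion (hw : ∀ x, 0 ≤ w x) (S : ℕ → Finset α) {ε : ℝ} (hε : 0 < ε)
    (hS : ∀ m, ∑ x ∈ S m, w x ≤ ε * (1 / 2) ^ (m + 1)) :
    Wt w (⋃ m, (S m : Set α)) ε := by
  classical
  intro u hu
  have hex : ∀ r : u, ∃ m, (r : α) ∈ S m := by
    intro r
    obtain ⟨m, hm⟩ := Set.mem_iUnion.mp (hu r.1 r.2)
    exact ⟨m, hm⟩
  choose g hg using hex
  obtain ⟨M, hM⟩ : ∃ M, ∀ r : u, g r < M :=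
    ⟨(Finset.univ.sup g) + 1, fun r => Nat.lt_succ_of_le (Finset.le_sup (Finset.mem_univ r))⟩
  calc ∑ x ∈ u, w x ≤ ∑ x ∈ (Finset.range M).biUnion S, w x := by
        apply Finset.sum_le_sum_of_subset_of_nonneg
        · intro x hx
          exact Finset.mem_biUnion.mpr ⟨g ⟨x, hx⟩, Finset.mem_range.mpr (hM _), hg _⟩
        · intro x _ _
          exact hw x
    _ ≤ ∑ m ∈ Finset.range M, ∑ x ∈ S m, w x := sum_biUnion_le' S _ hw M
    _ ≤ ∑ m ∈ Finset.range M, ε * (1 / 2) ^ (m + 1) := Finset.sum_le_sum fun m _ => hS m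
    _ = ε * (1 - (1 / 2) ^ M) := by
        rw [← Finset.mul_sum, sum_geom_half]
    _ ≤ ε := by
        have : (0 : ℝ) ≤ (1 / 2) ^ M := by positivity
        nlinarith

end weights

variable {d : ℕ}

/-- the lower central series of the free group -/
abbrev lcs (d n : ℕ) : Subgroup (FreeGroup (Fin d)) :=
  (⊤ : Subgroup (FreeGroup (Fin d))).lowerCentralSeries n

/-- relators killing the homomorphisms on all cores -/
theorem exists_deep (d : ℕ) (τ : ℝ) (h0 : 0 < τ) (h1 : τ < 1) (ε : ℝ) (hε : 0 < ε) (N₀ : ℕ) :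
    ∃ A : Set (FreeGroup (Fin d)), Wt (fun r => powTop τ (D0 r)) A ε ∧ (∀ r ∈ A, r ∈ lcs d N₀) ∧
      ∀ m, ∃ N, ∀ φ : QH (core d m),
        (∀ r (hr : r ∈ core d m), r ∈ A → φ (Additive.ofMul ⟨r, hr⟩) = 0) →
        ∀ h : core d m, (h : FreeGroup (Fin d)) ∈ lcs d N → φ (Additive.ofMul h) = 0 := by
  classical
  have hN : ∀ m : ℕ, ∃ N : ℕ, N₀ ≤ N ∧ τ ^ N <
      ε * (1 / 2) ^ (m + 1) / (Module.finrank ℚ (QH (core d m)) + 1) := by
    intro m
    obtain ⟨n, hn⟩ := exists_pow_lt_of_lt_one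
      (show 0 < ε * (1 / 2) ^ (m + 1) / (Module.finrank ℚ (QH (core d m)) + 1) by positivity) h1
    exact ⟨max N₀ n, le_max_left _ _,
      lt_of_le_of_lt (pow_le_pow_of_le_one h0.le h1.le (le_max_right _ _)) hn⟩
  choose N hN0 hN using hN
  choose S hS1 hS2 hS3 using fun m => exists_killing (core d m) (N m)
  refine ⟨⋃ m, (S m : Set (FreeGroup (Fin d))), ?_, ?_, ?_⟩
  · apply wt_iUnion (fun x => powTop_nonneg h0.le _) S hε
    intro m
    set c : ℝ := (Module.finrank ℚ (QH (core d m)) : ℝ) with hc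
    have hc0 : 0 ≤ c := Nat.cast_nonneg _
    calc ∑ r ∈ S m, powTop τ (D0 r) ≤ ∑ r ∈ S m, τ ^ (N m) := by
          apply Finset.sum_le_sum
          intro r hr
          exact powTop_D0_le h0.le h1.le (hS1 m r hr).2
      _ = (S m).card * τ ^ (N m) := by rw [Finset.sum_const, nsmul_eq_mul]
      _ ≤ c * (ε * (1 / 2) ^ (m + 1) / (c + 1)) := by
          apply mul_le_mul _ (hN m).le (by positivity) hc0
          rw [hc]
          exact Nat.cast_le.mpr (hS2 m)
      _ = ε * (1 / 2) ^ (m + 1) * (c / (c + 1)) := by ring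
      _ ≤ ε * (1 / 2) ^ (m + 1) * 1 := by
          apply mul_le_mul_of_nonneg_left _ (by positivity)
          rw [div_le_one (by positivity)]
          linarith
      _ = _ := mul_one _
  · intro r hr
    obtain ⟨m, hm⟩ := Set.mem_iUnion.mp hr
    exact Subgroup.lowerCentralSeries_antitone _ (hN0 m) (hS1 m r hm).2
  · intro m
    exact ⟨N m, fun φ hφ h hh => hS3 m φ
      (fun r hr hrS => hφ r hr (Set.mem_iUnion.mpr ⟨m, hrS⟩)) h hh⟩

/-- relators which make the quotient residually nilpotent -/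
theorem exists_resid (d : ℕ) (τ : ℝ) (h0 : 0 < τ) (h1 : τ < 1) (ε : ℝ) (hε : 0 < ε) (N₀ : ℕ)
    (J₁ : Subgroup (FreeGroup (Fin d))) (hJ : J₁.Normal) :
    ∃ B : Set (FreeGroup (Fin d)), Wt (fun r => powTop τ (D0 r)) B ε ∧ (∀ r ∈ B, r ∈ lcs d N₀) ∧
      J₁ ⊔ Subgroup.normalClosure B = ⨅ n, (lcs d n ⊔ J₁) := by
  classical
  let Z : Subgroup (FreeGroup (Fin d)) := ⨅ n, (lcs d n ⊔ J₁)
  have hZn : Z.Normal := Subgroup.normal_iInf_normal fun n => inferInstance
  have hcF : Countable (FreeGroup (Fin d)) := inferInstanceAs (Countable (Quot _))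
  obtain ⟨z, hz⟩ := (Set.to_countable (Z : Set (FreeGroup (Fin d)))).exists_eq_range
    ⟨1, Z.one_mem⟩
  have hzZ : ∀ j, z j ∈ Z := by
    intro j
    have : z j ∈ (Z : Set (FreeGroup (Fin d))) := by rw [hz]; exact ⟨j, rfl⟩
    exact this
  have hN : ∀ j : ℕ, ∃ N : ℕ, N₀ ≤ N ∧ τ ^ N < ε * (1 / 2) ^ (j + 1) := by
    intro m
    obtain ⟨n, hn⟩ := exists_pow_lt_of_lt_one (show 0 < ε * (1 / 2) ^ (m + 1) by positivity) h1
    exact ⟨max N₀ n, le_max_left _ _,
      lt_of_le_of_lt (pow_le_pow_of_le_one h0.le h1.le (le_max_right _ _)) hn⟩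
  choose N hN0 hN using hN
  have hdec : ∀ j, ∃ f ∈ lcs d (N j), ∃ r ∈ J₁, z j = f * r := by
    intro j
    have h2 : z j ∈ lcs d (N j) ⊔ J₁ := (Subgroup.mem_iInf.1 (hzZ j)) (N j)
    obtain ⟨f, hf, r, hr, h3⟩ := Subgroup.mem_sup_of_normal_right.1 h2
    exact ⟨f, hf, r, hr, h3.symm⟩
  choose f hf r hr hfr using hdec
  refine ⟨⋃ j, (({f j} : Finset (FreeGroup (Fin d))) : Set (FreeGroup (Fin d))), ?_, ?_, ?_⟩
  · apply wt_iUnion (fun x => powTop_nonneg h0.le _) (fun j => {f j}) hε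
    intro j
    rw [Finset.sum_singleton]
    exact (powTop_D0_le h0.le h1.le (hf j)).trans (hN j).le
  · intro x hx
    obtain ⟨j, hj⟩ := Set.mem_iUnion.mp hx
    rw [Finset.coe_singleton, Set.mem_singleton_iff] at hj
    rw [hj]
    exact Subgroup.lowerCentralSeries_antitone _ (hN0 j) (hf j)
  · apply le_antisymm
    · apply sup_le
      · exact le_iInf fun n => le_sup_right
      · apply Subgroup.normalClosure_le_normal
        intro x hx
        obtain ⟨j, hj⟩ := Set.mem_iUnion.mp hx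
        rw [Finset.coe_singleton, Set.mem_singleton_iff] at hj
        rw [hj]
        have h2 : f j = z j * (r j)⁻¹ := by rw [hfr]; group
        rw [h2]
        refine Z.mul_mem (hzZ j) (Z.inv_mem ?_)
        exact Subgroup.mem_iInf.2 fun n => (le_sup_right : J₁ ≤ _) (hr j)
    · intro x hx
      have h2 : x ∈ (Z : Set (FreeGroup (Fin d))) := hx
      rw [hz] at h2
      obtain ⟨j, rfl⟩ := h2
      rw [hfr]
      refine Subgroup.mul_mem _ ?_ ((le_sup_left : J₁ ≤ _) (hr j))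
      apply (le_sup_right : _ ≤ J₁ ⊔ _)
      apply Subgroup.subset_normalClosure
      refine Set.mem_iUnion.mpr ⟨j, ?_⟩
      rw [Finset.coe_singleton]
      exact rfl

/-- finitely generated residually nilpotent groups are residually finite -/
theorem resid_finite {G : Type} [Group G] (hG : Group.FG G)
    (h : (⨅ n, (⊤ : Subgroup G).lowerCentralSeries n) = ⊥) : Group.ResiduallyFinite G := by
  rw [Group.residuallyFinite_iff_exists_finiteIndex]
  intro g hg
  have h1 : ∃ n, g ∉ (⊤ : Subgroup G).lowerCentralSeries n := by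
    by_contra hcon
    push Not at hcon
    have h2 : g ∈ (⨅ n, (⊤ : Subgroup G).lowerCentralSeries n) := Subgroup.mem_iInf.2 hcon
    rw [h] at h2
    exact hg (Subgroup.mem_bot.1 h2)
  obtain ⟨n, hn⟩ := h1
  let P : Subgroup G := (⊤ : Subgroup G).lowerCentralSeries n
  have hfg : Group.FG (G ⧸ P) := QuotientGroup.fg _
  have hnil : Group.IsNilpotent (G ⧸ P) := by
    rw [Subgroup.nilpotent_iff_lowerCentralSeries]
    refine ⟨n, ?_⟩
    have h3 : (⊤ : Subgroup (G ⧸ P)) = (⊤ : Subgroup G).map (QuotientGroup.mk' P) := by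
      rw [Subgroup.map_top_of_surjective _ (QuotientGroup.mk'_surjective P)]
    rw [h3, ← Subgroup.map_lowerCentralSeries, eq_bot_iff]
    rintro _ ⟨x, hx, rfl⟩
    rw [Subgroup.mem_bot]
    exact (QuotientGroup.eq_one_iff x).2 hx
  obtain ⟨q, -, -, K, hK, hgK, hfin, -⟩ := Pool.Agent.Helper111.EN.resid (K := G ⧸ P) ∅
    (by simp) 2 Nat.prime_two (by simp) (by simp) (QuotientGroup.mk' P g)
    (fun h => hn ((QuotientGroup.eq_one_iff g).1 h))
  have hKf : K.FiniteIndex := Subgroup.finiteIndex_of_finite_quotient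
  refine ⟨K.comap (QuotientGroup.mk' P), ⟨?_⟩, hgK⟩
  rw [Subgroup.index_comap_of_surjective K (QuotientGroup.mk'_surjective P)]
  exact hKf.index_ne_zero

/-- The main theorem. -/
theorem main (Γ : Type) [Group Γ] (hΓ : IsGolodShafarevichZero Γ) (N : ℕ) :
    ∃ (M : Subgroup Γ) (_ : M.Normal), M ≤ (⊤ : Subgroup Γ).lowerCentralSeries N ∧
      IsGolodShafarevichZero (Γ ⧸ M) ∧ Group.ResiduallyFinite (Γ ⧸ M) ∧
      (⨅ n, (⊤ : Subgroup (Γ ⧸ M)).lowerCentralSeries n) = ⊥ ∧
      ∀ K : Subgroup (Γ ⧸ M), K.FiniteIndex →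
        (∀ φ : Additive K →+ ℚ, ∃ ψ : Additive (Γ ⧸ M) →+ ℚ, ∀ k : K,
          ψ (Additive.ofMul (k : Γ ⧸ M)) = φ (Additive.ofMul k)) ∧
        firstBetti K = firstBetti Γ := by
  classical
  obtain ⟨d, R₀, ⟨e⟩, τ, h0, h1, hs, hlt⟩ := hΓ
  set c₀ := ∑' r : R₀, powTop τ (D0 (r : FreeGroup (Fin d))) with hc₀
  obtain ⟨ε, hε, hε2⟩ : ∃ ε : ℝ, 0 < ε ∧ 1 - (d : ℝ) * τ + (c₀ + ε + ε) < 0 :=
    ⟨-(1 - (d : ℝ) * τ + c₀) / 4, by linarith, by linarith⟩
  have hw : ∀ x : FreeGroup (Fin d), 0 ≤ powTop τ (D0 x) := fun x => powTop_nonneg h0.le _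
  obtain ⟨A, hA1, hA2, hA3⟩ := exists_deep d τ h0 h1 ε hε (max N 1)
  obtain ⟨B, hB1, hB2, hB3⟩ := exists_resid d τ h0 h1 ε hε (max N 1)
    (Subgroup.normalClosure (R₀ ∪ A)) inferInstance
  set R : Set (FreeGroup (Fin d)) := R₀ ∪ A ∪ B with hR
  have hWt : Wt (fun r => powTop τ (D0 r)) R (c₀ + ε + ε) :=
    wt_union hw (wt_union hw (wt_of_summable hw hs) hA1) hB1
  obtain ⟨hsum, hle⟩ := summable_of_wt hw hWt
  let J : Subgroup (FreeGroup (Fin d)) := Subgroup.normalClosure R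
  have hJ : J = ⨅ n, (lcs d n ⊔ Subgroup.normalClosure (R₀ ∪ A)) := by
    rw [← hB3]
    apply le_antisymm
    · apply Subgroup.normalClosure_le_normal
      rintro x (hx | hx)
      · exact (le_sup_left : Subgroup.normalClosure (R₀ ∪ A) ≤ _) (Subgroup.subset_normalClosure hx)
      · exact (le_sup_right : _ ≤ Subgroup.normalClosure (R₀ ∪ A) ⊔ _)
          (Subgroup.subset_normalClosure hx)
    · exact sup_le (Subgroup.normalClosure_mono Set.subset_union_left)
        (Subgroup.normalClosure_mono Set.subset_union_right)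
  -- the projection
  let π : FreeGroup (Fin d) →* Γ := e.toMonoidHom.comp (PresentedGroup.mk R₀)
  have hπ : Function.Surjective π := e.surjective.comp (PresentedGroup.mk_surjective R₀)
  have hπR : ∀ r ∈ R₀, π r = 1 := by
    intro r hr
    show e (PresentedGroup.mk R₀ r) = 1
    rw [PresentedGroup.one_of_mem hr, map_one]
  have hπker : ∀ x, π x = 1 → x ∈ J := by
    intro x hx
    have h2 : PresentedGroup.mk R₀ x = 1 := by
      apply e.injective
      rw [map_one]; exact hx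
    have h3 : x ∈ Subgroup.normalClosure R₀ := (QuotientGroup.eq_one_iff x).1 h2
    exact Subgroup.normalClosure_mono
      (Set.subset_union_left.trans Set.subset_union_left) h3
  have hlcsΓ : ∀ n, ∀ x ∈ lcs d n, π x ∈ (⊤ : Subgroup Γ).lowerCentralSeries n := by
    intro n x hx
    have h2 := Subgroup.map_lowerCentralSeries (S := (⊤ : Subgroup (FreeGroup (Fin d)))) π n
    rw [Subgroup.map_top_of_surjective π hπ] at h2
    rw [← h2]
    exact ⟨x, hx, rfl⟩
  let M : Subgroup Γ := J.map π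
  have hMn : M.Normal := Subgroup.Normal.map inferInstance π hπ
  have hMN : M ≤ (⊤ : Subgroup Γ).lowerCentralSeries (max N 1) := by
    rw [Subgroup.map_le_iff_le_comap]
    apply Subgroup.normalClosure_le_normal
    rintro x ((hx | hx) | hx)
    · show π x ∈ (⊤ : Subgroup Γ).lowerCentralSeries (max N 1)
      rw [hπR x hx]; exact Subgroup.one_mem _
    · exact hlcsΓ _ x (hA2 x hx)
    · exact hlcsΓ _ x (hB2 x hx)
  let ρ : FreeGroup (Fin d) →* Γ ⧸ M := (QuotientGroup.mk' M).comp π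
  have hρ : Function.Surjective ρ := (QuotientGroup.mk'_surjective M).comp hπ
  have hρker : J = ρ.ker := by
    ext x
    constructor
    · intro hx
      exact (QuotientGroup.eq_one_iff (π x)).2 ⟨x, hx, rfl⟩
    · intro hx
      obtain ⟨y, hy, hxy⟩ := (QuotientGroup.eq_one_iff (π x)).1 hx
      have h2 : x * y⁻¹ ∈ J := by
        apply hπker
        rw [map_mul, map_inv, hxy, mul_inv_cancel]
      have h3 := J.mul_mem h2 hy
      rwa [inv_mul_cancel_right] at h3
  have hfgF : Group.FG (FreeGroup (Fin d)) := inferInstance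
  have hfgΓ : Group.FG Γ := Group.fg_of_surjective hπ
  have hfgG : Group.FG (Γ ⧸ M) := QuotientGroup.fg _
  have hlcsG : (⨅ n, (⊤ : Subgroup (Γ ⧸ M)).lowerCentralSeries n) = ⊥ := by
    rw [eq_bot_iff]
    intro g hg
    obtain ⟨x, rfl⟩ := hρ g
    rw [Subgroup.mem_bot]
    have h2 : x ∈ J := by
      rw [hJ]
      rw [Subgroup.mem_iInf]
      intro n
      have h3 : ρ x ∈ (⊤ : Subgroup (Γ ⧸ M)).lowerCentralSeries n := Subgroup.mem_iInf.1 hg n
      have h4 := Subgroup.map_lowerCentralSeries (S := (⊤ : Subgroup (FreeGroup (Fin d)))) ρ n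
      rw [Subgroup.map_top_of_surjective ρ hρ] at h4
      rw [← h4] at h3
      obtain ⟨y, hy, hxy⟩ := h3
      have h5 : y⁻¹ * x ∈ J := by
        rw [hρker, MonoidHom.mem_ker, map_mul, map_inv, hxy, inv_mul_cancel]
      have h6 : y⁻¹ * x ∈ lcs d n ⊔ Subgroup.normalClosure (R₀ ∪ A) := by
        rw [hJ] at h5
        exact Subgroup.mem_iInf.1 h5 n
      have h7 := Subgroup.mul_mem _
        ((le_sup_left : _ ≤ lcs d n ⊔ Subgroup.normalClosure (R₀ ∪ A)) hy) h6
      rwa [mul_inv_cancel_left] at h7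
    rw [hρker] at h2
    exact h2
  have hext : ∀ K : Subgroup (Γ ⧸ M), K.FiniteIndex → ∀ φ : QH K,
      ∃ ψ : QH (Γ ⧸ M), restr K ψ = φ := by
    intro K hK φ
    refine extends_hom A hA3 ρ hρ ?_ K hK φ
    intro r hr
    have h2 : r ∈ J := Subgroup.subset_normalClosure (Or.inl (Or.inr hr))
    rw [hρker] at h2
    exact h2
  refine ⟨M, hMn, hMN.trans (Subgroup.lowerCentralSeries_antitone _ (le_max_left _ _)), ?_,
    resid_finite hfgG hlcsG, hlcsG, ?_⟩
  · refine ⟨d, R, ⟨(QuotientGroup.quotientMulEquivOfEq hρker).trans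
      (QuotientGroup.quotientKerEquivOfSurjective ρ hρ)⟩, τ, h0, h1, hsum, ?_⟩
    linarith
  · intro K hK
    refine ⟨fun φ => ?_, ?_⟩
    · obtain ⟨ψ, hψ⟩ := hext K hK φ
      refine ⟨ψ, fun k => ?_⟩
      rw [← hψ]; rfl
    · rw [betti_const hfgG hext K hK]
      exact betti_quot hfgΓ M (hMN.trans (Subgroup.lowerCentralSeries_antitone _ (le_max_right _ _)))

/-- free groups of rank at least two are Golod-Shafarevich -/
theorem gs_free (d : ℕ) (hd : 2 ≤ d) : IsGolodShafarevichZero (FreeGroup (Fin d)) := by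
  have hw : ∀ x : FreeGroup (Fin d), 0 ≤ powTop (3 / 4) (D0 x) :=
    fun x => powTop_nonneg (by norm_num) _
  have hWt : Wt (fun r : FreeGroup (Fin d) => powTop (3 / 4) (D0 r)) ∅ 0 := by
    intro u hu
    have : u = ∅ := Finset.eq_empty_of_forall_notMem fun x hx => hu x hx
    rw [this, Finset.sum_empty]
  obtain ⟨h1, h2⟩ := summable_of_wt hw hWt
  refine ⟨d, ∅, ⟨?_⟩, 3 / 4, by norm_num, by norm_num, h1, ?_⟩
  · have h3 : (⊥ : Subgroup (FreeGroup (Fin d))) = Subgroup.normalClosure ∅ := by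
      rw [Subgroup.normalClosure_empty]
    exact (QuotientGroup.quotientMulEquivOfEq h3.symm).trans QuotientGroup.quotientBot
  · have h3 : (2 : ℝ) ≤ d := by exact_mod_cast hd
    linarith

end Pool.Agent.Y29.GS
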